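import Mathlib
import Pool.Agent.Q210.HC.Ent

/-!
# McKay-type Bessel densities are never hyperbolically completely monotone
-/

open Set Filter Topology
open scoped ContDiff

namespace Pool.Agent.Results.MP_ede858_pr.NeverHCM

noncomputable section

/-- The modified Bessel function of the first kind, for `x > 0`:
`I_μ(x) = ∑_k (x/2)^(2k+μ) / (k! Γ(μ+k+1))`. -/
def besselI (μ x : ℝ) : ℝ :=
  ∑' k : ℕ, (x / 2) ^ (2 * (k : ℝ) + μ) / ((k.factorial : ℝ) * Real.Gamma (μ + k + 1))

/-- Complete monotonicity on an open interval `s`. -/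
def CMOn (g : ℝ → ℝ) (s : Set ℝ) : Prop :=
  ContDiffOn ℝ ∞ g s ∧ ∀ n : ℕ, ∀ w ∈ s, 0 ≤ (-1) ^ n * iteratedDerivWithin n g s w

/-- Hyperbolic complete monotonicity: for every `u > 0`, the product `f(uv) f(u/v)` is a function
`g` of `w = v + 1/v`, and `g` is completely monotone on `(2, ∞)`. -/
def IsHCM (f : ℝ → ℝ) : Prop :=
  ∀ u : ℝ, 0 < u → ∃ g : ℝ → ℝ, (∀ v : ℝ, 0 < v → f (u * v) * f (u / v) = g (v + 1 / v)) ∧
    CMOn g (Ioi 2)

/-- The function `x^(ν-1) e^(-bx) I_μ(ax)`. -/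
def phi (μ ν a b x : ℝ) : ℝ := x ^ (ν - 1) * Real.exp (-b * x) * besselI μ (a * x)

/-- The function `x^(2μ) e^(-bx) I_μ(ax)^2`. -/
def xi (μ a b x : ℝ) : ℝ := x ^ (2 * μ) * Real.exp (-b * x) * besselI μ (a * x) ^ 2

open Pool.Agent.Q210.HC

theorem bessel_eq {μ x : ℝ} (hx : 0 < x) : besselI μ x = (x / 2) ^ μ * ER μ ((x / 2) ^ 2) := by
  unfold besselI ER e
  rw [← tsum_mul_left]
  refine tsum_congr fun k => ?_
  have h1 : (x / 2) ^ (2 * (k : ℝ) + μ) = ((x / 2) ^ 2) ^ k * (x / 2) ^ μ := by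
    rw [Real.rpow_add (by linarith), ← pow_mul]
    congr 1
    rw [← Real.rpow_natCast]
    congr 1
    push_cast
    rfl
  rw [h1]
  ring

/-- The general criterion. -/
theorem criterion {μ : ℝ} (hμ : -1 < μ) {β D : ℝ} (hD : 0 < D) {c : ℝ} (hc : 0 < c)
    (hj : j μ c = 0) {g : ℝ → ℝ} (hcm : CMOn g (Ioi 2)) {m : ℕ} (hm : m ≠ 0)
    (hg : ∀ v : ℝ, 0 < v → g (v + 1 / v) = D * Real.exp (-β * (v + 1 / v)) *
      (ER μ (c * v ^ 2) * ER μ (c * (1 / v) ^ 2)) ^ m) : False := by
  set h : ℝ → ℝ := fun w => D * Real.exp (-β * w) * (kR μ c w) ^ m with hh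
  set H : ℂ → ℂ := fun w => (D : ℂ) * Complex.exp (-(β : ℂ) * w) * (K μ c w) ^ m with hH
  have hHd : Differentiable ℂ H := by
    have h1 := K_differentiable hμ hc.le (c := c)
    have h2 : Differentiable ℂ fun w : ℂ => Complex.exp (-(β : ℂ) * w) :=
      (differentiable_id.const_mul (-(β : ℂ))).cexp
    exact (h2.const_mul (D : ℂ)).mul (h1.pow m)
  have hHr : ∀ x : ℝ, H x = (h x : ℂ) := by
    intro x
    simp only [hH, hh]
    rw [K_real]
    push_cast
    rfl
  have hval : ∀ v : ℝ, 0 < v → h (v + 1 / v) = g (v + 1 / v) := by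
    intro v hv
    simp only [hh]
    rw [hg v hv, kR_v hμ (show 1 / v * v = 1 by field_simp)]
  have hEq : EqOn g h (Ioi 2) := by
    intro w hw
    have hw2 : (2 : ℝ) < w := hw
    set s := Real.sqrt (w ^ 2 - 4) with hs
    have hs2 : s ^ 2 = w ^ 2 - 4 := Real.sq_sqrt (by nlinarith)
    have hs0 : 0 ≤ s := Real.sqrt_nonneg _
    have hv : 0 < (w + s) / 2 := by linarith
    have hinv : 1 / ((w + s) / 2) = (w - s) / 2 := by
      rw [div_eq_iff hv.ne']
      nlinarith
    have hsum : (w + s) / 2 + 1 / ((w + s) / 2) = w := by rw [hinv]; ring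
    have := hval _ hv
    rw [hsum] at this
    exact this.symm
  have h3 : ∀ n : ℕ, 0 ≤ (-1) ^ n * iteratedDeriv n h 3 := by
    intro n
    have hmem : (3 : ℝ) ∈ Ioi (2 : ℝ) := by simp; norm_num
    have h4 := hcm.2 n 3 hmem
    rw [iteratedDerivWithin_congr hEq hmem, iteratedDerivWithin_of_isOpen isOpen_Ioi hmem] at h4
    exact h4
  have h5 := le_at_zero hHd hHr h3
  have h6 : h 0 = 0 := by
    simp only [hh]
    rw [kR_zero hμ, hj]
    simp [hm]
  have h7 : 0 < h 3 := by
    set s := Real.sqrt 5 with hs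
    have hs2 : s ^ 2 = 5 := Real.sq_sqrt (by norm_num)
    have hs0 : 0 ≤ s := Real.sqrt_nonneg _
    have hv : 0 < (3 + s) / 2 := by linarith
    have hinv : 1 / ((3 + s) / 2) = (3 - s) / 2 := by
      rw [div_eq_iff hv.ne']
      nlinarith
    have hsum : (3 + s) / 2 + 1 / ((3 + s) / 2) = 3 := by rw [hinv]; ring
    have h8 := hval _ hv
    rw [hg _ hv, hsum] at h8
    rw [h8]
    have h9 : 0 < 1 / ((3 + s) / 2) := by positivity
    exact mul_pos (mul_pos hD (Real.exp_pos _)) (pow_pos (mul_pos (ER_pos hμ (by positivity))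
      (ER_pos hμ (by positivity))) m)
  linarith

/-- For all parameters in the stated domains, and every positive constant `C` (in particular the
normalising constant), neither `C φ` nor `C ξ` is hyperbolically completely monotone. -/
theorem result :
    (∀ μ ν a b C : ℝ, -1 < μ → 0 < μ + ν → 0 < a → a < b → 0 < C →
      ¬ IsHCM fun x => C * phi μ ν a b x) ∧
    (∀ μ a b C : ℝ, -1 / 4 < μ → 0 < a → 2 * a < b → 0 < C →
      ¬ IsHCM fun x => C * xi μ a b x) := by
  have common : ∀ (μ a u v : ℝ), 0 < a → 0 < u → 0 < v →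
      besselI μ (a * (u * v)) * besselI μ (a * (u / v)) =
        ((a * u / 2) ^ 2) ^ μ * (ER μ ((a * u / 2) ^ 2 * v ^ 2) *
          ER μ ((a * u / 2) ^ 2 * (1 / v) ^ 2)) := by
    intro μ a u v ha hu hv
    rw [bessel_eq (by positivity), bessel_eq (by positivity)]
    have h1 : (a * (u * v) / 2) ^ μ * (a * (u / v) / 2) ^ μ = ((a * u / 2) ^ 2) ^ μ := by
      rw [← Real.mul_rpow (by positivity) (by positivity)]
      congr 1
      field_simp
    have h2 : (a * (u * v) / 2) ^ 2 = (a * u / 2) ^ 2 * v ^ 2 := by ring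
    have h3 : (a * (u / v) / 2) ^ 2 = (a * u / 2) ^ 2 * (1 / v) ^ 2 := by ring
    rw [h2, h3, ← h1]
    ring
  constructor
  · intro μ ν a b C hμ _ ha _ hC hHCM
    obtain ⟨c, hc, hj⟩ := exists_zero hμ
    set u : ℝ := 2 * Real.sqrt c / a with hu
    have hsc : 0 < Real.sqrt c := Real.sqrt_pos.mpr hc
    have hu0 : 0 < u := by positivity
    have hcu : (a * u / 2) ^ 2 = c := by
      have : a * u / 2 = Real.sqrt c := by rw [hu]; field_simp
      rw [this, Real.sq_sqrt hc.le]
    obtain ⟨g, hg, hcm⟩ := hHCM u hu0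
    have hD : 0 < C ^ 2 * (u ^ 2) ^ (ν - 1) * c ^ μ := by positivity
    refine criterion hμ (β := b * u) hD hc hj hcm (m := 1) one_ne_zero fun v hv => ?_
    rw [← hg v hv]
    unfold phi
    have h1 := common μ a u v ha hu0 hv
    rw [hcu] at h1
    have h2 : (u * v) ^ (ν - 1) * (u / v) ^ (ν - 1) = (u ^ 2) ^ (ν - 1) := by
      rw [← Real.mul_rpow (by positivity) (by positivity)]
      congr 1
      field_simp
    have h3 : Real.exp (-b * (u * v)) * Real.exp (-b * (u / v)) =
        Real.exp (-(b * u) * (v + 1 / v)) := by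
      rw [← Real.exp_add]
      congr 1
      ring
    rw [pow_one, ← h2, ← h3]
    calc C * ((u * v) ^ (ν - 1) * Real.exp (-b * (u * v)) * besselI μ (a * (u * v))) *
        (C * ((u / v) ^ (ν - 1) * Real.exp (-b * (u / v)) * besselI μ (a * (u / v)))) =
        C ^ 2 * ((u * v) ^ (ν - 1) * (u / v) ^ (ν - 1)) *
          (Real.exp (-b * (u * v)) * Real.exp (-b * (u / v))) *
          (besselI μ (a * (u * v)) * besselI μ (a * (u / v))) := by ring
      _ = _ := by rw [h1]; ring
  · intro μ a b C hμ ha _ hC hHCM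
    have hμ' : -1 < μ := by linarith
    obtain ⟨c, hc, hj⟩ := exists_zero hμ'
    set u : ℝ := 2 * Real.sqrt c / a with hu
    have hsc : 0 < Real.sqrt c := Real.sqrt_pos.mpr hc
    have hu0 : 0 < u := by positivity
    have hcu : (a * u / 2) ^ 2 = c := by
      have : a * u / 2 = Real.sqrt c := by rw [hu]; field_simp
      rw [this, Real.sq_sqrt hc.le]
    obtain ⟨g, hg, hcm⟩ := hHCM u hu0
    have hD : 0 < C ^ 2 * (u ^ 2) ^ (2 * μ) * (c ^ μ) ^ 2 := by positivity
    refine criterion hμ' (β := b * u) hD hc hj hcm (m := 2) two_ne_zero fun v hv => ?_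
    rw [← hg v hv]
    unfold xi
    have h1 := common μ a u v ha hu0 hv
    rw [hcu] at h1
    have h2 : (u * v) ^ (2 * μ) * (u / v) ^ (2 * μ) = (u ^ 2) ^ (2 * μ) := by
      rw [← Real.mul_rpow (by positivity) (by positivity)]
      congr 1
      field_simp
    have h3 : Real.exp (-b * (u * v)) * Real.exp (-b * (u / v)) =
        Real.exp (-(b * u) * (v + 1 / v)) := by
      rw [← Real.exp_add]
      congr 1
      ring
    rw [← h2, ← h3]
    calc C * ((u * v) ^ (2 * μ) * Real.exp (-b * (u * v)) * besselI μ (a * (u * v)) ^ 2) *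
        (C * ((u / v) ^ (2 * μ) * Real.exp (-b * (u / v)) * besselI μ (a * (u / v)) ^ 2)) =
        C ^ 2 * ((u * v) ^ (2 * μ) * (u / v) ^ (2 * μ)) *
          (Real.exp (-b * (u * v)) * Real.exp (-b * (u / v))) *
          (besselI μ (a * (u * v)) * besselI μ (a * (u / v))) ^ 2 := by ring
      _ = _ := by rw [h1]; ring

end

end Pool.Agent.Results.MP_ede858_pr.NeverHCM
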